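import Mathlib
import Pool.Agent.X199.PolyExt

set_option autoImplicit false

namespace Pool.Agent.Results.MP_ace873_an.NotNormAttaining

open MeasureTheory Pool.Agent.X199.PolyExt Set
open scoped ENNReal

/-- `Y` is polyhedral: the closed unit ball of every finite-dimensional subspace is a polytope (the
convex hull of a finite set). -/
def IsPolyhedral (Y : Type) [NormedAddCommGroup Y] [NormedSpace ℝ Y] : Prop :=
  ∀ E : Submodule ℝ Y, FiniteDimensional ℝ E →
    ∃ F : Finset E, Metric.closedBall (0 : E) 1 = convexHull ℝ (F : Set E)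

/-- `u ∈ L₁(μ, Y)` is norm-attaining: `u(ω) = ∑ gᵢ(ω) yᵢ` for almost every `ω`, where
`gᵢ ∈ L₁(μ)`, `yᵢ ∈ Y` and `∑ ‖gᵢ‖ ‖yᵢ‖ = ‖u‖`. -/
def HasOptimalRepresentation {Ω : Type} [MeasurableSpace Ω] {μ : Measure Ω} {Y : Type}
    [NormedAddCommGroup Y] [NormedSpace ℝ Y] (u : Lp Y 1 μ) : Prop :=
  ∃ (g : ℕ → Lp ℝ 1 μ) (y : ℕ → Y), (∀ᵐ ω ∂μ, HasSum (fun i => g i ω • y i) (u ω)) ∧
    HasSum (fun i => ‖g i‖ * ‖y i‖) ‖u‖

theorem not_countable_seq : ¬ Countable (ℕ → Bool) := by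
  intro h
  obtain ⟨f, hf⟩ := exists_surjective_nat (ℕ → Bool)
  obtain ⟨n, hn⟩ := hf (fun n => !(f n n))
  have := congrFun hn n
  simp at this

/-- There are a measure space `(Ω, Σ, μ)`, a real polyhedral Banach space `Y` and an element of
`L₁(μ, Y)` which admits no optimal representation. -/
theorem result : ∃ (Ω : Type) (_ : MeasurableSpace Ω) (μ : Measure Ω) (Y : Type)
    (_ : NormedAddCommGroup Y) (_ : NormedSpace ℝ Y), CompleteSpace Y ∧ IsPolyhedral Y ∧
    ∃ u : Lp Y 1 μ, ¬ HasOptimalRepresentation u := by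
  let μ : Measure ℝ := volume.restrict (Icc 0 1)
  have hprob : IsProbabilityMeasure μ := ⟨by simp [μ]⟩
  let e : ℝ ≃ᵐ (ℕ → Bool) := PolishSpace.measurableEquivOfNotCountable
    (not_countable) not_countable_seq
  let f : ℝ → Y := fun t => vv (e t)
  have hfinj : Function.Injective f := vv_injective.comp e.injective
  have hfm : StronglyMeasurable f := vv_continuous.stronglyMeasurable.comp_measurable e.measurable
  have hf1 : ∀ t, ‖f t‖ = 1 := fun t => norm_vv _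
  have hmem : MemLp f 1 μ := by
    apply MemLp.of_bound hfm.aestronglyMeasurable 1
    exact Filter.Eventually.of_forall fun t => (hf1 t).le
  refine ⟨ℝ, inferInstance, μ, Y, inferInstance, inferInstance, inferInstance,
    fun E _ => polyhedral E, hmem.toLp f, ?_⟩
  rintro ⟨g, y, hsum, hnorm⟩
  have hu : ∀ᵐ t ∂μ, (hmem.toLp f) t = f t := hmem.coeFn_toLp
  -- the norm of `u`
  have hu1 : ENNReal.ofReal ‖hmem.toLp f‖ = 1 := by
    rw [L1.ofReal_norm_eq_lintegral]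
    have : ∫⁻ t, ‖(hmem.toLp f) t‖ₑ ∂μ = ∫⁻ t, 1 ∂μ := by
      apply lintegral_congr_ae
      filter_upwards [hu] with t ht
      rw [ht, ← ofReal_norm, hf1, ENNReal.ofReal_one]
    rw [this]
    simp
  -- the integral of the sum of the norms
  have hgm : ∀ i, AEMeasurable (fun t => ‖g i t‖ₑ * ‖y i‖ₑ) μ := fun i =>
    (Lp.aestronglyMeasurable (g i)).enorm.mul_const _
  have hF : ∫⁻ t, ∑' i, ‖g i t‖ₑ * ‖y i‖ₑ ∂μ = 1 := by
    rw [lintegral_tsum hgm]
    have h1 : ∀ i, ∫⁻ t, ‖g i t‖ₑ * ‖y i‖ₑ ∂μ = ENNReal.ofReal (‖g i‖ * ‖y i‖) := by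
      intro i
      rw [lintegral_mul_const'' _ (Lp.aestronglyMeasurable (g i)).enorm,
        ← L1.ofReal_norm_eq_lintegral, ENNReal.ofReal_mul (norm_nonneg _), ofReal_norm (y i)]
    simp only [h1]
    rw [← ENNReal.ofReal_tsum_of_nonneg (fun i => by positivity) hnorm.summable, hnorm.tsum_eq, hu1]
  -- pointwise
  have hle : (fun _ : ℝ => (1 : ℝ≥0∞)) ≤ᵐ[μ] fun t => ∑' i, ‖g i t‖ₑ * ‖y i‖ₑ := by
    filter_upwards [hu, hsum] with t ht hs
    rw [ht] at hs
    have h1 : (1 : ℝ≥0∞) = ‖f t‖ₑ := by rw [← ofReal_norm, hf1, ENNReal.ofReal_one]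
    refine h1.le.trans ?_
    rw [← hs.tsum_eq]
    refine (enorm_tsum_le_tsum_enorm).trans (le_of_eq ?_)
    apply tsum_congr
    intro i
    rw [enorm_smul]
  have heq : (fun _ : ℝ => (1 : ℝ≥0∞)) =ᵐ[μ] fun t => ∑' i, ‖g i t‖ₑ * ‖y i‖ₑ := by
    apply ae_eq_of_ae_le_of_lintegral_le hle
    · simp
    · exact AEMeasurable.tsum hgm
    · rw [hF]; simp
  have hpick : ∀ᵐ t ∂μ, t ∈ ⋃ i, (f ⁻¹' {‖y i‖⁻¹ • y i} ∪ f ⁻¹' {-(‖y i‖⁻¹ • y i)}) := by
    filter_upwards [hu, hsum, heq] with t ht hs h1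
    rw [ht] at hs
    have hne : ∑' i, ‖g i t • y i‖ₑ ≠ ⊤ := by
      have h2 : ∑' i, ‖g i t • y i‖ₑ = ∑' i, ‖g i t‖ₑ * ‖y i‖ₑ :=
        tsum_congr fun i => enorm_smul _ _
      rw [h2, ← h1]
      exact ENNReal.one_ne_top
    have hterm : ∀ i, ‖g i t‖ₑ * ‖y i‖ₑ = ENNReal.ofReal (|g i t| * ‖y i‖) := by
      intro i
      rw [ENNReal.ofReal_mul (abs_nonneg _), ← Real.norm_eq_abs, ofReal_norm,
        ofReal_norm]
    simp only [hterm] at h1
    have hsm : Summable fun i => |g i t| * ‖y i‖ := by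
      have h2 := tsum_enorm_ne_top_iff_summable_norm.mp hne
      simpa only [norm_smul, Real.norm_eq_abs] using h2
    have hS : HasSum (fun i => |g i t| * ‖y i‖) 1 := by
      rw [hsm.hasSum_iff]
      rw [← ENNReal.ofReal_tsum_of_nonneg (fun i => by positivity) hsm] at h1
      have := h1.symm
      rwa [ENNReal.ofReal_eq_one] at this
    obtain ⟨i, hi⟩ := pick (vv_ext (e t)) (norm_vv (e t)) hs hS
    rw [mem_iUnion]
    refine ⟨i, ?_⟩
    rcases hi with hi | hi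
    · left; exact hi
    · right; exact hi
  have hcount : (⋃ i, (f ⁻¹' {‖y i‖⁻¹ • y i} ∪ f ⁻¹' {-(‖y i‖⁻¹ • y i)})).Countable := by
    apply countable_iUnion
    intro i
    exact ((countable_singleton _).preimage_of_injOn hfinj.injOn).union
      ((countable_singleton _).preimage_of_injOn hfinj.injOn)
  have h0 := hcount.measure_zero μ
  have h1 : μ univ = 0 := by
    rw [← union_compl_self (⋃ i, (f ⁻¹' {‖y i‖⁻¹ • y i} ∪ f ⁻¹' {-(‖y i‖⁻¹ • y i)}))]
    exact measure_union_null h0 hpick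
  rw [measure_univ] at h1
  exact one_ne_zero h1

end Pool.Agent.Results.MP_ace873_an.NotNormAttaining
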